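import Pool.Agent.Helper896.LL.Net

/-!
Library Helper896.LL (helper896): the theorem on long lengths.
-/

set_option autoImplicit false

namespace Pool.Agent.Helper896.LL

open Finset Filter Topology
open Pool.Agent.Helper896.MA
open Pool.Agent.Helper896.TW
open Pool.Agent.Y958.U (LZ)

lemma gg_one (a b n : ℕ) : gg a b n * gg a b (n + 1) = lm (a * n + b) := by
  rw [gg_mul, prod_range_one, add_zero]

lemma gg_two (a b n : ℕ) : gg a b n * gg a b (n + 2) = lm (a * n + b) * lm (a * n + (a + b)) := by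
  rw [gg_mul, prod_range_succ, prod_range_one, add_zero, mul_add, mul_one, add_assoc]

/-- **long lengths** -/
theorem long_lengths : ∃ E : Set ℕ, LZ E ∧ ∀ a b : ℕ, 1 ≤ a → ∀ ε : ℝ, 0 < ε → ∃ N₀ : ℕ, ∀ N : ℕ, N₀ ≤ N →
    N ∉ E → ∃ T : Finset ℕ, T ⊆ Icc 1 N ∧ (T.card : ℝ) ≤ ε * N ∧ ∀ k ∈ Icc 1 N, k ∉ T → Good a b N ε k := by
  classical
  obtain ⟨E, hE, h⟩ := key_pairs
  refine ⟨E, hE, fun a b ha ε hε => ?_⟩
  obtain ⟨η, hη, N₁, h1⟩ := net a b ε hε
  obtain ⟨N₂, h2⟩ := one3 a b ha 4 η hη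
  obtain ⟨N₃, h3⟩ := h (fun _ => a) (fun i => if i = 0 then b else a + b) (fun _ => ha) (by
    simp only [if_true, Fin.isValue, one_ne_zero, if_false]
    intro h4
    have h5 := Nat.eq_of_mul_eq_mul_left (by omega) h4
    omega) 4 (η / 2) (by positivity)
  obtain ⟨N₄, h4⟩ := exists_nat_ge (2 / η)
  refine ⟨N₁ + N₂ + N₃ + N₄ + 1, fun N hN hNE => ?_⟩
  have hN4 : 2 / η ≤ N := h4.trans (by exact_mod_cast (by omega : N₄ ≤ N))
  rw [div_le_iff₀ hη] at hN4
  have hS : Small a b N (η * N) := by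
    intro M hM α
    constructor
    · refine le_trans (le_of_eq ?_) (h2 N (by omega) M hM α)
      congr 1
      refine sum_congr rfl fun n _ => ?_
      rw [gg_one]
      push_cast
      rfl
    · rcases Nat.eq_zero_or_pos M with h5 | h5
      · subst h5
        rw [range_zero, sum_empty, norm_zero]
        positivity
      obtain ⟨M', rfl⟩ : ∃ M', M = M' + 1 := ⟨M - 1, by omega⟩
      rw [sum_range_succ']
      have h6 := h3 N (by omega) hNE M' (by omega) α
      have h7 : ∑ n ∈ range M', ((gg a b (n + 1) * gg a b (n + 1 + 2) : ℝ) : ℂ) * ec (α * ((n + 1 : ℕ) : ℝ)) =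
          Sf (fun _ => a) (fun i : Fin 2 => if i = 0 then b else a + b) M' α := by
        unfold Sf
        have e : Icc 1 M' = Ico 1 (M' + 1) := by
          ext n
          rw [mem_Icc, mem_Ico]
          omega
        rw [e, sum_Ico_eq_sum_range, Nat.add_sub_cancel]
        refine sum_congr rfl fun n _ => ?_
        rw [gg_two, Fin.prod_univ_two, add_comm 1 n]
        simp
      rw [h7]
      refine (norm_add_le _ _).trans ?_
      have h8 : ‖((gg a b 0 * gg a b (0 + 2) : ℝ) : ℂ) * ec (α * ((0 : ℕ) : ℝ))‖ = 1 := by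
        rw [norm_mul, ec_norm, mul_one, Complex.norm_real, Real.norm_eq_abs, abs_mul, gg_abs, gg_abs, one_mul]
      rw [h8]
      linarith
  have h5 := h1 N (by omega) hS
  refine ⟨(Icc 1 N).filter (fun k => ¬ Good a b N ε k), filter_subset _ _, h5, fun k hk hk2 => ?_⟩
  by_contra hcon
  exact hk2 (mem_filter.2 ⟨hk, hcon⟩)

end Pool.Agent.Helper896.LL
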