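import Pool.Agent.Helper896.MA.Equi

/-!
Library Helper896.LL (helper896): Fourier analysis on a finite cyclic group for the correlations with long
shifts.
-/

set_option autoImplicit false

namespace Pool.Agent.Helper896.LL

open Finset
open Pool.Agent.Helper896.MA (ec ec_norm ec_add ec_zero ec_neg ec_int ec_nat_mul ec_ne_one_of)

lemma orth (L : ℕ) (hL : 1 ≤ L) (d : ℤ) :
    ∑ u ∈ range L, ec ((u : ℝ) / L * d) = if (L : ℤ) ∣ d then (L : ℂ) else 0 := by
  have hL0 : (0 : ℝ) < L := by exact_mod_cast hL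
  split_ifs with h
  · obtain ⟨t, rfl⟩ := h
    have h1 : ∀ u ∈ range L, ec ((u : ℝ) / L * ((L * t : ℤ) : ℝ)) = 1 := by
      intro u _
      have e : (u : ℝ) / L * ((L * t : ℤ) : ℝ) = ((u * t : ℤ) : ℝ) := by
        push_cast
        field_simp
      rw [e, ec_int]
    rw [sum_congr rfl h1]
    simp
  · have h1 : ∀ u ∈ range L, ec ((u : ℝ) / L * d) = ec ((d : ℝ) / L) ^ u := by
      intro u _
      rw [← ec_nat_mul]
      congr 1
      ring
    rw [sum_congr rfl h1]
    have h2 : ec ((d : ℝ) / L) ≠ 1 := by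
      apply ec_ne_one_of _ (1 / L) (by positivity)
      intro t
      have e : (d : ℝ) / L - t = (d - L * t) / L := by field_simp
      rw [e, abs_div, abs_of_pos hL0]
      apply div_le_div_of_nonneg_right _ hL0.le
      have h3 : d - L * t ≠ 0 := fun h4 => h ⟨t, by omega⟩
      have h4 : (1 : ℤ) ≤ |d - L * t| := Int.one_le_abs h3
      exact_mod_cast h4
    rw [geom_sum_eq h2, ← ec_nat_mul]
    have h3 : (d : ℝ) / L * L = (d : ℝ) := by field_simp
    rw [h3, ec_int, sub_self, zero_div]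

/-- Fourier transform of a function on a finite set -/
noncomputable def ft (L : ℕ) (S : Finset ℕ) (x : ℕ → ℝ) (u : ℕ) : ℂ :=
  ∑ m ∈ S, (x m : ℂ) * ec ((u : ℝ) / L * m)

lemma parseval (L : ℕ) (hL : 1 ≤ L) (S : Finset ℕ) (hS : ∀ m ∈ S, m < L) (x : ℕ → ℝ) :
    ∑ u ∈ range L, ‖ft L S x u‖ ^ 2 = L * ∑ m ∈ S, x m ^ 2 := by
  have h1 : ((∑ u ∈ range L, ‖ft L S x u‖ ^ 2 : ℝ) : ℂ) = ((L * ∑ m ∈ S, x m ^ 2 : ℝ) : ℂ) := by
    push_cast
    have h2 : ∀ u ∈ range L, ((‖ft L S x u‖ : ℂ)) ^ 2 = ∑ m ∈ S, ∑ l ∈ S,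
        (x m : ℂ) * x l * ec ((u : ℝ) / L * ((m : ℤ) - (l : ℤ) : ℤ)) := by
      intro u _
      rw [← Complex.conj_mul', mul_comm]
      unfold ft
      rw [map_sum, sum_mul_sum]
      refine sum_congr rfl fun m _ => sum_congr rfl fun l _ => ?_
      rw [map_mul, Complex.conj_ofReal, ← ec_neg]
      have e : ec ((u : ℝ) / L * m) * ec (-((u : ℝ) / L * l)) = ec ((u : ℝ) / L * (((m : ℤ) - (l : ℤ) : ℤ) : ℝ)) := by
        rw [← ec_add]
        congr 1
        push_cast
        ring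
      rw [← e]
      ring
    rw [sum_congr rfl h2, sum_comm, mul_sum]
    refine sum_congr rfl fun m hm => ?_
    rw [sum_comm]
    have h3 : ∀ l ∈ S, ∑ u ∈ range L, (x m : ℂ) * x l * ec ((u : ℝ) / L * ((m : ℤ) - (l : ℤ) : ℤ)) =
        if l = m then (L : ℂ) * (x m : ℂ) ^ 2 else 0 := by
      intro l hl
      rw [← mul_sum, orth L hL]
      have hm' := hS m hm
      have hl' := hS l hl
      by_cases hlm : l = m
      · subst hlm
        rw [if_pos rfl, if_pos (by simp)]
        ring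
      · rw [if_neg hlm, if_neg, mul_zero]
        rintro ⟨t, ht⟩
        rcases lt_trichotomy t 0 with h4 | h4 | h4
        · nlinarith
        · rw [h4, mul_zero] at ht
          omega
        · nlinarith
    rw [sum_congr rfl h3, sum_ite_eq' S m, if_pos hm]
  exact_mod_cast h1

/-- the convolution -/
noncomputable def PP (K : Finset ℕ) (σ g : ℕ → ℝ) (n : ℕ) : ℝ := ∑ k ∈ K, σ k * g (n + k)

lemma recon (L : ℕ) (hL : 1 ≤ L) (K : Finset ℕ) (σ g : ℕ → ℝ) (n : ℕ) (h : ∀ k ∈ K, n + k < L) :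
    ∑ u ∈ range L, (starRingEnd ℂ) (ft L (range L) g u) * ft L K σ u * ec ((u : ℝ) / L * n) =
      L * PP K σ g n := by
  have h1 : ∀ u ∈ range L, (starRingEnd ℂ) (ft L (range L) g u) * ft L K σ u * ec ((u : ℝ) / L * n) =
      ∑ k ∈ K, ∑ m ∈ range L, (σ k : ℂ) * g m * ec ((u : ℝ) / L * (((n : ℤ) + k - m : ℤ) : ℝ)) := by
    intro u _
    unfold ft
    rw [map_sum, sum_mul_sum, sum_mul, sum_comm]
    refine sum_congr rfl fun m _ => ?_
    rw [sum_mul]
    refine sum_congr rfl fun k _ => ?_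
    rw [map_mul, Complex.conj_ofReal, ← ec_neg]
    have e : ec (-((u : ℝ) / L * m)) * ec ((u : ℝ) / L * k) * ec ((u : ℝ) / L * n) =
        ec ((u : ℝ) / L * (((n : ℤ) + k - m : ℤ) : ℝ)) := by
      rw [← ec_add, ← ec_add]
      congr 1
      push_cast
      ring
    rw [← e]
    ring
  rw [sum_congr rfl h1, sum_comm]
  have e2 : ((PP K σ g n : ℝ) : ℂ) = ∑ k ∈ K, (σ k : ℂ) * (g (n + k) : ℂ) := by
    unfold PP
    push_cast
    rfl
  rw [e2, mul_sum]
  refine sum_congr rfl fun k hk => ?_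
  rw [sum_comm]
  have h3 : ∀ m ∈ range L, ∑ u ∈ range L, (σ k : ℂ) * g m * ec ((u : ℝ) / L * (((n : ℤ) + k - m : ℤ) : ℝ)) =
      if m = n + k then (L : ℂ) * ((σ k : ℂ) * g (n + k)) else 0 := by
    intro m hm
    rw [mem_range] at hm
    rw [← mul_sum, orth L hL]
    have hk' := h k hk
    by_cases hmn : m = n + k
    · subst hmn
      rw [if_pos rfl, if_pos (by push_cast; simp)]
      ring
    · rw [if_neg hmn, if_neg, mul_zero]
      rintro ⟨t, ht⟩
      rcases lt_trichotomy t 0 with h4 | h4 | h4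
      · nlinarith
      · rw [h4, mul_zero] at ht
        omega
      · nlinarith
  rw [sum_congr rfl h3, sum_ite_eq' (range L) (n + k), if_pos (mem_range.2 (h k hk))]

/-- the main estimate -/
lemma wiener (L N : ℕ) (hL : 1 ≤ L) (hN : 1 ≤ N) (K : Finset ℕ) (σ g A : ℕ → ℝ) (l : ℕ) (hK : ∀ k ∈ K, N + l + k ≤ L)
    (hg : ∀ n, |g n| ≤ 1) (hσ : ∀ n, |σ n| ≤ 1) (B : ℝ)
    (hA : ∀ α : ℝ, ‖∑ n ∈ range N, (A n : ℂ) * ec (α * n)‖ ≤ B) :
    |∑ n ∈ range N, A n * (PP K σ g n * PP K σ g (n + l))| ≤ B * L * K.card := by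
  have hL0 : (0 : ℝ) < L := by exact_mod_cast hL
  have hB : 0 ≤ B := (norm_nonneg _).trans (hA 0)
  set c : ℕ → ℂ := fun u => (starRingEnd ℂ) (ft L (range L) g u) * ft L K σ u with hc
  have e1 : (L : ℂ) * L * ((∑ n ∈ range N, A n * (PP K σ g n * PP K σ g (n + l)) : ℝ) : ℂ) =
      ∑ u ∈ range L, ∑ v ∈ range L, c u * c v * ec ((v : ℝ) / L * l) *
        ∑ n ∈ range N, (A n : ℂ) * ec (((u : ℝ) / L + v / L) * n) := by
    have h1 : ∀ n ∈ range N, (L : ℂ) * L * ((A n * (PP K σ g n * PP K σ g (n + l)) : ℝ) : ℂ) =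
        ∑ u ∈ range L, ∑ v ∈ range L, c u * c v * ec ((v : ℝ) / L * l) *
          ((A n : ℂ) * ec (((u : ℝ) / L + v / L) * n)) := by
      intro n hn
      rw [mem_range] at hn
      have h2 := recon L hL K σ g n (fun k hk => by have := hK k hk; omega)
      have h3 := recon L hL K σ g (n + l) (fun k hk => by have := hK k hk; omega)
      have h4 : (L : ℂ) * L * ((A n * (PP K σ g n * PP K σ g (n + l)) : ℝ) : ℂ) =
          A n * ((L * PP K σ g n) * (L * PP K σ g (n + l))) := by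
        push_cast
        ring
      rw [h4, ← h2, ← h3, sum_mul_sum, mul_sum]
      refine sum_congr rfl fun u _ => ?_
      rw [mul_sum]
      refine sum_congr rfl fun v _ => ?_
      rw [hc]
      simp only
      have e : ec (((u : ℝ) / L + v / L) * n) * ec ((v : ℝ) / L * l) =
          ec ((u : ℝ) / L * n) * ec ((v : ℝ) / L * ((n + l : ℕ) : ℝ)) := by
        rw [← ec_add, ← ec_add]
        congr 1
        push_cast
        ring
      calc (A n : ℂ) * ((starRingEnd ℂ) (ft L (range L) g u) * ft L K σ u * ec ((u : ℝ) / L * n) *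
            ((starRingEnd ℂ) (ft L (range L) g v) * ft L K σ v * ec ((v : ℝ) / L * ((n + l : ℕ) : ℝ)))) =
            (starRingEnd ℂ) (ft L (range L) g u) * ft L K σ u *
              ((starRingEnd ℂ) (ft L (range L) g v) * ft L K σ v) * A n *
              (ec ((u : ℝ) / L * n) * ec ((v : ℝ) / L * ((n + l : ℕ) : ℝ))) := by ring
        _ = _ := by rw [← e]; ring
    rw [Complex.ofReal_sum, mul_sum, sum_congr rfl h1, sum_comm]
    refine sum_congr rfl fun u _ => ?_
    rw [sum_comm]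
    refine sum_congr rfl fun v _ => ?_
    rw [mul_sum]
  have h1 : (L : ℝ) * L * |∑ n ∈ range N, A n * (PP K σ g n * PP K σ g (n + l))| ≤
      B * (∑ u ∈ range L, ‖c u‖) ^ 2 := by
    have h2 : (L : ℝ) * L * |∑ n ∈ range N, A n * (PP K σ g n * PP K σ g (n + l))| =
        ‖(L : ℂ) * L * ((∑ n ∈ range N, A n * (PP K σ g n * PP K σ g (n + l)) : ℝ) : ℂ)‖ := by
      rw [norm_mul, norm_mul, Complex.norm_natCast, Complex.norm_real, Real.norm_eq_abs]
    rw [h2, e1]
    refine (norm_sum_le _ _).trans ?_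
    have h3 : ∀ u ∈ range L, ‖∑ v ∈ range L, c u * c v * ec ((v : ℝ) / L * l) *
        ∑ n ∈ range N, (A n : ℂ) * ec (((u : ℝ) / L + v / L) * n)‖ ≤ ∑ v ∈ range L, ‖c u‖ * ‖c v‖ * B := by
      intro u _
      refine (norm_sum_le _ _).trans (sum_le_sum fun v _ => ?_)
      rw [norm_mul, norm_mul, norm_mul, ec_norm, mul_one]
      exact mul_le_mul_of_nonneg_left (hA _) (by positivity)
    refine (sum_le_sum h3).trans (le_of_eq ?_)
    rw [pow_two, sum_mul_sum, mul_sum]
    refine sum_congr rfl fun u _ => ?_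
    rw [mul_sum]
    refine sum_congr rfl fun v _ => ?_
    ring
  have h2 : (∑ u ∈ range L, ‖c u‖) ^ 2 ≤ (L * L) * (L * K.card) := by
    have h3 : ∀ u ∈ range L, ‖c u‖ = ‖ft L (range L) g u‖ * ‖ft L K σ u‖ := by
      intro u _
      rw [hc]
      simp only
      rw [norm_mul, RCLike.norm_conj]
    rw [sum_congr rfl h3]
    refine (sum_mul_sq_le_sq_mul_sq _ _ _).trans ?_
    rw [parseval L hL (range L) (fun m hm => mem_range.1 hm) g,
      parseval L hL K (fun m hm => by have := hK m hm; omega) σ]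
    have h4 : ∑ m ∈ range L, g m ^ 2 ≤ L := by
      refine (sum_le_sum fun m _ => (sq_le_one_iff_abs_le_one (g m)).2 (hg m)).trans (le_of_eq ?_)
      simp
    have h5 : ∑ m ∈ K, σ m ^ 2 ≤ K.card := by
      refine (sum_le_sum fun m _ => (sq_le_one_iff_abs_le_one (σ m)).2 (hσ m)).trans (le_of_eq ?_)
      simp
    apply mul_le_mul
    · exact mul_le_mul_of_nonneg_left h4 hL0.le
    · exact mul_le_mul_of_nonneg_left h5 hL0.le
    · exact mul_nonneg hL0.le (sum_nonneg fun m _ => sq_nonneg _)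
    · positivity
  have h3 := h1.trans (mul_le_mul_of_nonneg_left h2 hB)
  have h4 : B * ((L : ℝ) * L * (L * K.card)) = L * L * (B * L * K.card) := by ring
  rw [h4] at h3
  exact le_of_mul_le_mul_left h3 (by positivity)

end Pool.Agent.Helper896.LL
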