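import Pool.Agent.Helper896.LL.Four

/-!
Library Helper896.LL (helper896): the autocorrelations of a sign sequence at most shifts are at most a third, if
the autocorrelations at the shifts `1` and `2`, twisted by additive characters, are small.
-/

set_option autoImplicit false

namespace Pool.Agent.Helper896.LL

open Finset
open Pool.Agent.Helper896.MA (ec ec_norm ec_add ec_zero ec_neg ec_int ec_nat_mul ec_ne_one_of)

/-- shifting a sum -/
lemma sum_shift (N i : ℕ) (φ : ℕ → ℝ) (h : ∀ n, |φ n| ≤ 1) :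
    |∑ n ∈ range N, φ (n + i) - ∑ n ∈ range N, φ n| ≤ 2 * i := by
  have h1 : ∑ n ∈ range (N + i), φ n = ∑ n ∈ range N, φ n + ∑ n ∈ range i, φ (N + n) := sum_range_add _ _ _
  have h2 : ∑ n ∈ range (i + N), φ n = ∑ n ∈ range i, φ n + ∑ n ∈ range N, φ (i + n) := sum_range_add _ _ _
  have h3 : |∑ n ∈ range i, φ (N + n)| ≤ i := by
    refine (abs_sum_le_sum_abs _ _).trans ((sum_le_sum fun n _ => h _).trans (le_of_eq ?_))
    simp
  have h4 : |∑ n ∈ range i, φ n| ≤ i := by
    refine (abs_sum_le_sum_abs _ _).trans ((sum_le_sum fun n _ => h _).trans (le_of_eq ?_))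
    simp
  have h5 : ∑ n ∈ range N, φ (n + i) = ∑ n ∈ range N, φ (i + n) := by
    refine sum_congr rfl fun n _ => by rw [add_comm]
  rw [add_comm i N, h1] at h2
  rw [h5]
  rw [abs_le] at h3 h4 ⊢
  constructor <;> linarith [h3.1, h3.2, h4.1, h4.2]

/-- exponential sums of a shifted function -/
lemma expo_shift (A : ℕ → ℝ) (R : ℕ) (B : ℝ)
    (h : ∀ M ≤ R, ∀ α : ℝ, ‖∑ n ∈ range M, (A n : ℂ) * ec (α * n)‖ ≤ B) (t N : ℕ) (htN : t + N ≤ R) (α : ℝ) :
    ‖∑ n ∈ range N, (A (n + t) : ℂ) * ec (α * n)‖ ≤ 2 * B := by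
  have h1 : ∑ n ∈ range (t + N), (A n : ℂ) * ec (α * n) =
      ∑ n ∈ range t, (A n : ℂ) * ec (α * n) +
        ec (α * t) * ∑ n ∈ range N, (A (n + t) : ℂ) * ec (α * n) := by
    rw [sum_range_add, mul_sum]
    congr 1
    refine sum_congr rfl fun n _ => ?_
    have e : ec (α * ((t + n : ℕ) : ℝ)) = ec (α * t) * ec (α * n) := by
      rw [← ec_add]
      congr 1
      push_cast
      ring
    rw [e, add_comm n t]
    ring
  have h2 : ‖∑ n ∈ range N, (A (n + t) : ℂ) * ec (α * n)‖ =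
      ‖ec (α * t) * ∑ n ∈ range N, (A (n + t) : ℂ) * ec (α * n)‖ := by
    rw [norm_mul, ec_norm, one_mul]
  have h3 : ec (α * t) * ∑ n ∈ range N, (A (n + t) : ℂ) * ec (α * n) =
      ∑ n ∈ range (t + N), (A n : ℂ) * ec (α * n) - ∑ n ∈ range t, (A n : ℂ) * ec (α * n) := by
    rw [h1]; ring
  rw [h2, h3]
  refine (norm_sub_le _ _).trans ?_
  have := h (t + N) htN α
  have := h t (by omega) α
  linarith

section main

variable (g : ℕ → ℝ) (K : Finset ℕ) (σ : ℕ → ℝ)

/-- the average of the shifts -/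
noncomputable def qq (n : ℕ) : ℝ := PP K σ g n / K.card

lemma qq_abs (hg : ∀ n, |g n| = 1) (hσ : ∀ n, |σ n| ≤ 1) (n : ℕ) : |qq g K σ n| ≤ 1 := by
  unfold qq PP
  rw [abs_div, Nat.abs_cast]
  apply div_le_one_of_le₀ _ (Nat.cast_nonneg _)
  refine (abs_sum_le_sum_abs _ _).trans ((sum_le_sum fun k _ => ?_).trans (le_of_eq (by simp :
    ∑ k ∈ K, (1 : ℝ) = K.card)))
  rw [abs_mul, hg, mul_one]
  exact hσ k

/-- the basic inequality -/
lemma basic (hg : ∀ n, |g n| = 1) (hσ : ∀ n, |σ n| ≤ 1) (N R T : ℕ) (hN : 1 ≤ N) (hK : K.Nonempty)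
    (hKR : ∀ k ∈ K, k ≤ R) (B : ℝ)
    (hB : ∀ l, l = 1 ∨ l = 2 → ∀ M ≤ T, ∀ α : ℝ,
      ‖∑ n ∈ range M, ((g n * g (n + l) : ℝ) : ℂ) * ec (α * n)‖ ≤ B) (t : ℕ) (ht : t + N ≤ T) :
    9 * (∑ n ∈ range N, g (n + t) * qq g K σ n) ^ 2 ≤
      N * (3 * ∑ n ∈ range N, qq g K σ n ^ 2 + (12 * B * (N + R + 2) / K.card + 82)) := by
  set q := qq g K σ with hq
  have hq1 : ∀ n, |q n| ≤ 1 := qq_abs g K σ hg hσ
  have hK0 : (0 : ℝ) < K.card := by
    have := hK.card_pos
    exact_mod_cast this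
  have hg2 : ∀ n, g n * g n = 1 := fun n => by rw [← abs_mul_abs_self, hg, one_mul]
  have hN0 : (1 : ℝ) ≤ N := by exact_mod_cast hN
  set D : ℝ := 2 * B * (N + R + 2) / K.card with hD
  -- the cross terms
  have cross : ∀ l, l = 1 ∨ l = 2 →
      |∑ n ∈ range N, g (n + t) * g (n + t + l) * (q n * q (n + l))| ≤ D := by
    intro l hl
    have h1 := wiener (N + R + 2) N (by omega) hN K σ g (fun n => g (n + t) * g (n + t + l)) l
      (fun k hk => by
        have := hKR k hk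
        rcases hl with rfl | rfl <;> omega) (fun n => (hg n).le) hσ (2 * B)
      (fun α => expo_shift (fun n => g n * g (n + l)) T B (hB l hl) t N ht α)
    have e : ∑ n ∈ range N, g (n + t) * g (n + t + l) * (q n * q (n + l)) =
        (∑ n ∈ range N, g (n + t) * g (n + t + l) * (PP K σ g n * PP K σ g (n + l))) / (K.card : ℝ) ^ 2 := by
      rw [sum_div]
      refine sum_congr rfl fun n _ => ?_
      rw [hq]
      unfold qq
      field_simp
    rw [e, abs_div, abs_of_pos (by positivity : (0 : ℝ) < (K.card : ℝ) ^ 2), hD,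
      div_le_div_iff₀ (by positivity) hK0]
    push_cast at h1
    have h2 := mul_le_mul_of_nonneg_right h1 hK0.le
    refine h2.trans (le_of_eq ?_)
    ring
  set u : ℕ → ℝ := fun n => g (n + t) * q n with hu
  have hu1 : ∀ n, |u n| ≤ 1 := by
    intro n
    rw [hu]
    simp only
    rw [abs_mul, hg, one_mul]
    exact hq1 n
  have huu : ∀ n, u n ^ 2 = q n ^ 2 := by
    intro n
    rw [hu]
    simp only
    rw [mul_pow, pow_two (g _), hg2, one_mul]
  have hpr : ∀ n m, |u n * u m| ≤ 1 := by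
    intro n m
    rw [abs_mul]
    calc |u n| * |u m| ≤ 1 * 1 := mul_le_mul (hu1 n) (hu1 m) (abs_nonneg _) zero_le_one
      _ = 1 := one_mul 1
  have c1 : |∑ n ∈ range N, u n * u (n + 1)| ≤ D := by
    have h1 := cross 1 (Or.inl rfl)
    have e : ∑ n ∈ range N, u n * u (n + 1) = ∑ n ∈ range N, g (n + t) * g (n + t + 1) * (q n * q (n + 1)) := by
      refine sum_congr rfl fun n _ => ?_
      rw [hu]
      simp only
      rw [show n + 1 + t = n + t + 1 by ring]
      ring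
    rw [e]
    exact h1
  have c2 : |∑ n ∈ range N, u n * u (n + 2)| ≤ D := by
    have h1 := cross 2 (Or.inr rfl)
    have e : ∑ n ∈ range N, u n * u (n + 2) = ∑ n ∈ range N, g (n + t) * g (n + t + 2) * (q n * q (n + 2)) := by
      refine sum_congr rfl fun n _ => ?_
      rw [hu]
      simp only
      rw [show n + 2 + t = n + t + 2 by ring]
      ring
    rw [e]
    exact h1
  have c3 := sum_shift N 1 (fun n => u n * u (n + 1)) (fun n => hpr _ _)
  have s1 := sum_shift N 1 u hu1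
  have s2 := sum_shift N 2 u hu1
  have hsq : ∀ n, |u n ^ 2| ≤ 1 := fun n => by rw [pow_two]; exact hpr n n
  have s3 := sum_shift N 1 (fun n => u n ^ 2) hsq
  have s4 := sum_shift N 2 (fun n => u n ^ 2) hsq
  set z : ℝ := ∑ n ∈ range N, u n with hz
  set S2 : ℝ := ∑ n ∈ range N, u n ^ 2 with hS2
  have hS2q : S2 = ∑ n ∈ range N, q n ^ 2 := sum_congr rfl fun n _ => huu n
  -- the sum of the squares
  have h1 : ∑ n ∈ range N, (u n + u (n + 1) + u (n + 2)) ^ 2 ≤ 3 * S2 + 6 * D + 10 := by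
    have e : ∑ n ∈ range N, (u n + u (n + 1) + u (n + 2)) ^ 2 =
        S2 + ∑ n ∈ range N, u (n + 1) ^ 2 + ∑ n ∈ range N, u (n + 2) ^ 2 +
        2 * ∑ n ∈ range N, u n * u (n + 1) + 2 * ∑ n ∈ range N, u (n + 1) * u (n + 1 + 1) +
        2 * ∑ n ∈ range N, u n * u (n + 2) := by
      rw [hS2, mul_sum, mul_sum, mul_sum, ← sum_add_distrib, ← sum_add_distrib, ← sum_add_distrib,
        ← sum_add_distrib, ← sum_add_distrib]
      refine sum_congr rfl fun n _ => ?_
      rw [show n + 1 + 1 = n + 2 by ring]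
      ring
    rw [e]
    rw [abs_le] at c1 c2 c3 s3 s4
    push_cast at c3 s3 s4
    linarith [c1.2, c2.2, c3.2, s3.2, s4.2]
  have h2 : (∑ n ∈ range N, (u n + u (n + 1) + u (n + 2))) ^ 2 ≤ N * (3 * S2 + 6 * D + 10) := by
    have h3 := sq_sum_le_card_mul_sum_sq (s := range N) (f := fun n => u n + u (n + 1) + u (n + 2))
    rw [card_range] at h3
    exact h3.trans (mul_le_mul_of_nonneg_left h1 (by linarith))
  set V : ℝ := ∑ n ∈ range N, (u n + u (n + 1) + u (n + 2)) with hV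
  have h3 : V = z + ∑ n ∈ range N, u (n + 1) + ∑ n ∈ range N, u (n + 2) := by
    rw [hV, hz, ← sum_add_distrib, ← sum_add_distrib]
  have h4 : |V - 3 * z| ≤ 6 := by
    rw [h3]
    push_cast at s1 s2
    rw [abs_le] at s1 s2 ⊢
    constructor <;> linarith [s1.1, s1.2, s2.1, s2.2]
  have h5 : |z| ≤ N := by
    rw [hz]
    refine (abs_sum_le_sum_abs _ _).trans ((sum_le_sum fun n _ => hu1 n).trans (le_of_eq ?_))
    simp
  have h6 : 9 * z ^ 2 ≤ V ^ 2 + 36 * N + 36 := by
    have h7 : 9 * z ^ 2 = V ^ 2 - 2 * (V - 3 * z) * (3 * z) - (V - 3 * z) ^ 2 := by ring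
    have h8 : |(V - 3 * z) * z| ≤ 6 * N := by
      rw [abs_mul]
      exact mul_le_mul h4 h5 (abs_nonneg _) (by norm_num)
    rw [abs_le] at h8
    have h9 : 0 ≤ (V - 3 * z) ^ 2 := sq_nonneg _
    nlinarith [h8.1, h8.2]
  have h7 : 6 * D = 12 * B * (N + R + 2) / K.card := by
    rw [hD]
    ring
  rw [← hS2q, ← h7]
  have h8 : V ^ 2 + 36 * N + 36 ≤ N * (3 * S2 + (6 * D + 82)) := by nlinarith
  exact h6.trans h8

/-- **the average over a set of shifts** -/
theorem long (hg : ∀ n, |g n| = 1) (N R T : ℕ) (hN : 1 ≤ N) (hK : K.Nonempty)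
    (hKR : ∀ k ∈ K, k ≤ R) (hT : R + N ≤ T) (B : ℝ)
    (hB : ∀ l, l = 1 ∨ l = 2 → ∀ M ≤ T, ∀ α : ℝ,
      ‖∑ n ∈ range M, ((g n * g (n + l) : ℝ) : ℂ) * ec (α * n)‖ ≤ B) :
    ∑ k ∈ K, |∑ n ∈ range N, g n * g (n + k)| ≤ K.card * N / 3 + 4 * B * (N + R + 2) + 28 * K.card := by
  set σ : ℕ → ℝ := fun k => if 0 ≤ ∑ n ∈ range N, g n * g (n + k) then 1 else -1 with hσd
  have hσ : ∀ k, |σ k| ≤ 1 := by
    intro k; rw [hσd]; simp only; split_ifs <;> simp
  have hσ2 : ∀ k, σ k * ∑ n ∈ range N, g n * g (n + k) = |∑ n ∈ range N, g n * g (n + k)| := by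
    intro k
    rw [hσd]
    simp only
    split_ifs with h
    · rw [one_mul, abs_of_nonneg h]
    · rw [abs_of_neg (not_le.1 h)]; ring
  have hB0 : 0 ≤ B := (norm_nonneg _).trans (hB 1 (Or.inl rfl) 0 (Nat.zero_le _) 0)
  have hK0 : (0 : ℝ) < K.card := by
    have := hK.card_pos
    exact_mod_cast this
  have hN0 : (1 : ℝ) ≤ N := by exact_mod_cast hN
  set q := qq g K σ with hq
  set S2 : ℝ := ∑ n ∈ range N, q n ^ 2 with hS2
  set E : ℝ := 12 * B * (N + R + 2) / K.card + 82 with hE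
  have hE0 : 0 ≤ E := by positivity
  have key : ∀ t, t + N ≤ T → 9 * (∑ n ∈ range N, g (n + t) * q n) ^ 2 ≤ N * (3 * S2 + E) :=
    fun t ht => basic g K σ hg hσ N R T hN hK hKR B hB t ht
  have hS20 : 0 ≤ S2 := sum_nonneg fun n _ => sq_nonneg _
  -- the sum of squares
  have h1 : K.card * S2 = ∑ k ∈ K, σ k * ∑ n ∈ range N, g (n + k) * q n := by
    rw [hS2, mul_sum]
    simp only [mul_sum]
    rw [sum_comm]
    refine sum_congr rfl fun n _ => ?_
    have e : (K.card : ℝ) * q n = ∑ k ∈ K, σ k * g (n + k) := by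
      rw [hq]
      unfold qq PP
      field_simp
    rw [pow_two, ← mul_assoc, e, sum_mul]
    refine sum_congr rfl fun k _ => by ring
  have h2 : S2 ≤ (N + E) / 3 := by
    by_contra hcon
    push Not at hcon
    set Y : ℝ := Real.sqrt (N * (3 * S2 + E) / 9) with hY
    have h3 : ∀ k ∈ K, |∑ n ∈ range N, g (n + k) * q n| ≤ Y := by
      intro k hk
      apply Real.abs_le_sqrt
      have := key k (by have := hKR k hk; omega)
      rw [le_div_iff₀ (by norm_num)]
      linarith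
    have h4 : K.card * S2 ≤ K.card * Y := by
      rw [h1]
      calc ∑ k ∈ K, σ k * ∑ n ∈ range N, g (n + k) * q n ≤ ∑ k ∈ K, Y := by
            refine sum_le_sum fun k hk => ?_
            refine (le_abs_self _).trans ?_
            rw [abs_mul]
            calc |σ k| * |∑ n ∈ range N, g (n + k) * q n| ≤ 1 * Y :=
                  mul_le_mul (hσ k) (h3 k hk) (abs_nonneg _) zero_le_one
              _ = Y := one_mul Y
        _ = K.card * Y := by rw [sum_const, nsmul_eq_mul]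
    have h5 : S2 ≤ Y := le_of_mul_le_mul_left h4 hK0
    have h6 : S2 ^ 2 ≤ Y ^ 2 := pow_le_pow_left₀ hS20 h5 2
    rw [hY, Real.sq_sqrt (by positivity)] at h6
    rw [le_div_iff₀ (by norm_num)] at h6
    nlinarith
  have h3 : K.card * ∑ n ∈ range N, g (n + 0) * q n = ∑ k ∈ K, |∑ n ∈ range N, g n * g (n + k)| := by
    rw [mul_sum]
    have e : ∀ k ∈ K, |∑ n ∈ range N, g n * g (n + k)| = ∑ n ∈ range N, σ k * (g n * g (n + k)) := by
      intro k _
      rw [← hσ2, mul_sum]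
    rw [sum_congr rfl e, sum_comm]
    refine sum_congr rfl fun n _ => ?_
    have e : (K.card : ℝ) * q n = ∑ k ∈ K, σ k * g (n + k) := by
      rw [hq]
      unfold qq PP
      field_simp
    rw [add_zero, mul_left_comm, e, mul_sum]
    refine sum_congr rfl fun k _ => by ring
  have h4 := key 0 (by omega)
  have h5 : ∑ n ∈ range N, g (n + 0) * q n ≤ (N + E) / 3 := by
    by_contra hcon
    push Not at hcon
    have h6 : 0 ≤ ((N : ℝ) + E) / 3 := by positivity
    nlinarith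
  rw [← h3]
  have h6 := mul_le_mul_of_nonneg_left h5 hK0.le
  refine h6.trans ?_
  rw [hE]
  have h7 : (K.card : ℝ) * ((N + (12 * B * (N + R + 2) / K.card + 82)) / 3) =
      K.card * N / 3 + 4 * B * (N + R + 2) + 82 / 3 * K.card := by
    field_simp
    ring
  rw [h7]
  linarith

end main

end Pool.Agent.Helper896.LL
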