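import Pool.Agent.Helper896.LL.One

/-!
Library Helper896.LL (helper896): products of the values of the Liouville function at the terms of a progression;
long lengths.
-/

set_option autoImplicit false

namespace Pool.Agent.Helper896.LL

open Finset Filter Topology
open Pool.Agent.Helper896.MA
open Pool.Agent.Helper896.TW
open Pool.Agent.Y958.U (LZ)

/-- the product of the first values -/
noncomputable def gg (a b n : ℕ) : ℝ := ∏ j ∈ range n, (lm (a * j + b) : ℝ)

/-- the sum over an interval of the products of `k` consecutive values -/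
noncomputable def SS (a b k Y X : ℕ) : ℝ := ∑ n ∈ Ioc Y X, ∏ j ∈ range k, (lm (a * (n + j) + b) : ℝ)

lemma lm_absr (n : ℕ) : |(lm n : ℝ)| = 1 := by exact_mod_cast lm_abs n

lemma gg_abs (a b n : ℕ) : |gg a b n| = 1 := by
  unfold gg
  rw [abs_prod]
  exact prod_eq_one fun j _ => lm_absr _

lemma gg_sq (a b n : ℕ) : gg a b n * gg a b n = 1 := by
  rw [← abs_mul_abs_self, gg_abs, one_mul]

lemma gg_mul (a b n k : ℕ) : gg a b n * gg a b (n + k) = ∏ j ∈ range k, (lm (a * (n + j) + b) : ℝ) := by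
  unfold gg
  rw [prod_range_add, ← mul_assoc]
  have := gg_sq a b n
  unfold gg at this
  rw [this, one_mul]

lemma SS_eq (a b k Y X : ℕ) : SS a b k Y X =
    ∑ n ∈ range (X - Y), gg a b (n + (Y + 1)) * gg a b (n + k + (Y + 1)) := by
  unfold SS
  have e : Ioc Y X = Ico (Y + 1) (X + 1) := by
    ext n
    rw [mem_Ioc, mem_Ico]
    omega
  rw [e, sum_Ico_eq_sum_range, show X + 1 - (Y + 1) = X - Y by omega]
  refine sum_congr rfl fun n _ => ?_
  rw [show n + k + (Y + 1) = n + (Y + 1) + k by ring, gg_mul]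
  refine prod_congr rfl fun j _ => ?_
  rw [show Y + 1 + n = n + (Y + 1) by ring]

lemma SS_nil (a b k Y : ℕ) : SS a b k Y Y = 0 := by
  unfold SS
  rw [Ioc_self, sum_empty]

lemma term_abs (a b k n : ℕ) : |∏ j ∈ range k, (lm (a * (n + j) + b) : ℝ)| = 1 := by
  rw [abs_prod]
  exact prod_eq_one fun j _ => lm_absr _

lemma SS_le (a b k : ℕ) {Y X : ℕ} (h : Y ≤ X) : |SS a b k Y X| ≤ (X : ℝ) - Y := by
  unfold SS
  refine (abs_sum_le_sum_abs _ _).trans (le_of_eq ?_)
  rw [sum_congr rfl fun n _ => term_abs a b k n, sum_const, Nat.card_Ioc, nsmul_eq_mul, mul_one, Nat.cast_sub h]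

lemma SS_add (a b k : ℕ) {Y Z X : ℕ} (h1 : Y ≤ Z) (h2 : Z ≤ X) : SS a b k Y X = SS a b k Y Z + SS a b k Z X := by
  unfold SS
  rw [← Ioc_union_Ioc_eq_Ioc h1 h2, sum_union]
  rw [disjoint_left]
  intro n hn hn'
  rw [mem_Ioc] at hn hn'
  omega

/-- the exponential sums up to `4 N` are small -/
def Small (a b N : ℕ) (B : ℝ) : Prop :=
  ∀ M ≤ 4 * N, ∀ α : ℝ, ‖∑ n ∈ range M, ((gg a b n * gg a b (n + 1) : ℝ) : ℂ) * ec (α * n)‖ ≤ B ∧
    ‖∑ n ∈ range M, ((gg a b n * gg a b (n + 2) : ℝ) : ℂ) * ec (α * n)‖ ≤ B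

lemma int_bound (a b N : ℕ) (B : ℝ) (hB : Small a b N B) (K : Finset ℕ) (hK : K.Nonempty)
    (hKN : ∀ k ∈ K, k ≤ N) {Y X : ℕ} (hYX : Y < X) (hXN : X ≤ N) :
    ∑ k ∈ K, |SS a b k Y X| ≤ K.card * ((X : ℝ) - Y) / 3 + 32 * B * N + 28 * K.card := by
  have hB0 : 0 ≤ B := (norm_nonneg _).trans (hB 0 (Nat.zero_le _) 0).1
  have hN1 : 1 ≤ N := by omega
  have h1 := long (fun n => gg a b (n + (Y + 1))) K (fun n => gg_abs a b _) (X - Y) N (2 * N) (by omega) hK hKN
    (by omega) (2 * B) (by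
      intro l hl M hM α
      have h2 := expo_shift (fun n => gg a b n * gg a b (n + l)) (4 * N) B (by
        intro M' hM' α'
        rcases hl with rfl | rfl
        · exact (hB M' hM' α').1
        · exact (hB M' hM' α').2) (Y + 1) M (by omega) α
      refine le_trans (le_of_eq ?_) h2
      congr 1
      refine sum_congr rfl fun n _ => ?_
      rw [show n + l + (Y + 1) = n + (Y + 1) + l by ring])
  have e : ∀ k ∈ K, |SS a b k Y X| =
      |∑ n ∈ range (X - Y), gg a b (n + (Y + 1)) * gg a b (n + k + (Y + 1))| := fun k _ => by rw [SS_eq]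
  rw [sum_congr rfl e]
  refine h1.trans ?_
  have hc : ((X - Y : ℕ) : ℝ) = (X : ℝ) - Y := Nat.cast_sub hYX.le
  rw [hc]
  have hXN' : (X : ℝ) ≤ N := by exact_mod_cast hXN
  have hY0 : (0 : ℝ) ≤ Y := Nat.cast_nonneg _
  have hN0 : (1 : ℝ) ≤ N := by exact_mod_cast hN1
  have h3 : 4 * (2 * B) * ((X : ℝ) - Y + N + 2) ≤ 32 * B * N := by
    have : (X : ℝ) - Y + N + 2 ≤ 4 * N := by linarith
    nlinarith
  linarith

/-- good lengths -/
def Good (a b N : ℕ) (ε : ℝ) (k : ℕ) : Prop :=
  ∀ Y X : ℕ, Y ≤ X → X ≤ N → |SS a b k Y X| ≤ ((X : ℝ) - Y) / 3 + ε * N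

open Classical in
lemma net (a b : ℕ) (ε : ℝ) (hε : 0 < ε) : ∃ η : ℝ, 0 < η ∧ ∃ N₀ : ℕ, ∀ N : ℕ, N₀ ≤ N →
    Small a b N (η * N) → (((Icc 1 N).filter (fun k => ¬ Good a b N ε k)).card : ℝ) ≤ ε * N := by
  obtain ⟨L, hL⟩ := exists_nat_ge (16 / ε + 1)
  have hL1 : 1 ≤ L := by
    by_contra h
    have h1 : L = 0 := by omega
    subst h1
    have : 0 ≤ 16 / ε := by positivity
    simp only [Nat.cast_zero] at hL
    linarith
  set η : ℝ := ε ^ 2 / (128 * (2 * L + 1) ^ 2) with hη
  have hη0 : 0 < η := by positivity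
  obtain ⟨N₁, hN₁⟩ := exists_nat_ge (112 / ε)
  refine ⟨η, hη0, N₁ + L + 1, fun N hN hS => ?_⟩
  have hN1 : 112 ≤ ε * N := by
    have h1 : 112 / ε ≤ N := hN₁.trans (by exact_mod_cast (by omega : N₁ ≤ N))
    rw [div_le_iff₀ hε] at h1
    linarith
  have hN0 : (0 : ℝ) < N := by exact_mod_cast (by omega : 0 < N)
  set P : ℕ := N / L with hP
  have hP1 : 1 ≤ P := by
    rw [hP, Nat.le_div_iff_mul_le (by omega)]
    omega
  have hLP : L * P ≤ N := Nat.mul_div_le N L
  have hLP' : N < L * (P + 1) := Nat.lt_mul_div_succ N (by omega : 0 < L)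
  have hPN : (P : ℝ) ≤ ε / 16 * N := by
    have h3 : (L : ℝ) * P ≤ N := by exact_mod_cast hLP
    have h4 : 16 / ε ≤ L := by linarith
    rw [div_le_iff₀ hε] at h4
    have h5 : (0 : ℝ) ≤ P := Nat.cast_nonneg _
    nlinarith
  -- the bad lengths of the grid
  set Bd : ℕ → ℕ → Finset ℕ := fun i j => (Icc 1 N).filter
    (fun k => i * P < j * P ∧ j * P ≤ N ∧ (((j * P : ℕ) : ℝ) - (i * P : ℕ)) / 3 + ε / 2 * N < |SS a b k (i * P) (j * P)|)
    with hBd
  have hBdc : ∀ i j, ((Bd i j).card : ℝ) ≤ 128 * η * N / ε := by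
    intro i j
    rcases (Bd i j).eq_empty_or_nonempty with h0 | h0
    · rw [h0, card_empty]
      push_cast
      positivity
    · obtain ⟨k₀, hk₀⟩ := h0
      have hk₀' := hk₀
      rw [hBd] at hk₀'
      simp only at hk₀'
      rw [mem_filter] at hk₀'
      have h1 := int_bound a b N (η * N) hS (Bd i j) ⟨k₀, hk₀⟩ (fun k hk => by
        rw [hBd] at hk
        simp only at hk
        rw [mem_filter, mem_Icc] at hk
        exact hk.1.2) hk₀'.2.1 hk₀'.2.2.1
      have h2 : (Bd i j).card * ((((j * P : ℕ) : ℝ) - (i * P : ℕ)) / 3 + ε / 2 * N) ≤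
          ∑ k ∈ Bd i j, |SS a b k (i * P) (j * P)| := by
        rw [← nsmul_eq_mul, ← sum_const]
        refine sum_le_sum fun k hk => ?_
        rw [hBd] at hk
        simp only at hk
        rw [mem_filter] at hk
        exact hk.2.2.2.le
      rw [le_div_iff₀ hε]
      have h3 : (0 : ℝ) ≤ (Bd i j).card := Nat.cast_nonneg _
      have h4 : ((Bd i j).card : ℝ) * (ε / 4 * N) ≤ 32 * (η * N) * N := by
        have h5 : ((Bd i j).card : ℝ) * 28 ≤ (Bd i j).card * (ε / 4 * N) := by
          apply mul_le_mul_of_nonneg_left _ h3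
          linarith
        nlinarith
      have h6 : ((Bd i j).card : ℝ) * ε * N ≤ 128 * η * N * N := by linarith
      exact le_of_mul_le_mul_right h6 hN0
  have hsub : (Icc 1 N).filter (fun k => ¬ Good a b N ε k) ⊆
      (range (2 * L + 1) ×ˢ range (2 * L + 1)).biUnion (fun z => Bd z.1 z.2) := by
    intro k hk
    rw [mem_filter] at hk
    obtain ⟨hk1, hk2⟩ := hk
    unfold Good at hk2
    push Not at hk2
    obtain ⟨Y, X, hYX, hXN, h1⟩ := hk2
    have hY1 : Y / P * P ≤ Y := Nat.div_mul_le_self Y P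
    have hY2 : Y < Y / P * P + P := by
      have := Nat.lt_mul_div_succ Y (by omega : 0 < P)
      rw [mul_add, mul_one, mul_comm P] at this
      exact this
    have hX1 : X / P * P ≤ X := Nat.div_mul_le_self X P
    have hX2 : X < X / P * P + P := by
      have := Nat.lt_mul_div_succ X (by omega : 0 < P)
      rw [mul_add, mul_one, mul_comm P] at this
      exact this
    have hYX' : Y / P * P ≤ X / P * P := Nat.mul_le_mul_right _ (Nat.div_le_div_right hYX)
    have hgr : ∀ Z, Z ≤ N → Z / P ∈ range (2 * L + 1) := by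
      intro Z hZ
      rw [mem_range, Nat.lt_succ_iff]
      apply Nat.div_le_of_le_mul
      calc Z ≤ N := hZ
        _ ≤ L * (P + 1) := hLP'.le
        _ ≤ L * (2 * P) := Nat.mul_le_mul_left _ (by omega)
        _ = P * (2 * L) := by ring
    rw [mem_biUnion]
    refine ⟨(Y / P, X / P), ?_, ?_⟩
    · rw [mem_product]
      exact ⟨hgr Y (hYX.trans hXN), hgr X hXN⟩
    · set Y' : ℕ := Y / P * P with hY'
      set X' : ℕ := X / P * P with hX'
      have h2 : SS a b k Y X = SS a b k Y' X' - SS a b k Y' Y + SS a b k X' X := by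
        have e1 := SS_add a b k hYX' hX1
        have e2 := SS_add a b k hY1 hYX
        linarith
      have h3 := SS_le a b k hY1
      have h4 := SS_le a b k hX1
      have hY3 : (Y : ℝ) < Y' + P := by exact_mod_cast hY2
      have hX3 : (X : ℝ) < X' + P := by exact_mod_cast hX2
      have hY4 : (Y' : ℝ) ≤ Y := by exact_mod_cast hY1
      have hX4 : (X' : ℝ) ≤ X := by exact_mod_cast hX1
      have h5 : |SS a b k Y X| ≤ |SS a b k Y' X'| + 2 * P := by
        rw [h2]
        have h6 := abs_add_le (SS a b k Y' X' - SS a b k Y' Y) (SS a b k X' X)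
        have h7 := abs_sub (SS a b k Y' X') (SS a b k Y' Y)
        linarith
      have h6 : ((X' : ℝ) - Y') / 3 + ε / 2 * N < |SS a b k Y' X'| := by linarith
      rw [hBd]
      simp only
      rw [mem_filter]
      refine ⟨hk1, ?_, hX1.trans hXN, h6⟩
      rcases Nat.lt_or_ge Y' X' with h7 | h7
      · exact h7
      · exfalso
        have h8 : Y' = X' := le_antisymm hYX' h7
        rw [h8, SS_nil, abs_zero, sub_self, zero_div, zero_add] at h6
        have : 0 ≤ ε / 2 * N := by positivity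
        linarith
  have h1 : (((Icc 1 N).filter (fun k => ¬ Good a b N ε k)).card : ℝ) ≤
      ∑ z ∈ range (2 * L + 1) ×ˢ range (2 * L + 1), ((Bd z.1 z.2).card : ℝ) := by
    have h2 := (card_le_card hsub).trans card_biUnion_le
    exact_mod_cast h2
  refine h1.trans ((sum_le_sum fun z _ => hBdc z.1 z.2).trans (le_of_eq ?_))
  rw [sum_const, card_product, card_range, nsmul_eq_mul, hη]
  push_cast
  field_simp

end Pool.Agent.Helper896.LL
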