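import Pool.Agent.Helper896.TW.Lng
import Pool.Agent.Helper896.LL.Long

/-!
Library Helper896.LL (helper896): exponential sums of the Liouville function along a progression.
-/

set_option autoImplicit false

namespace Pool.Agent.Helper896.LL

open Finset Filter Topology
open Pool.Agent.Helper896.MA
open Pool.Agent.Helper896.TW

lemma one1 (η : ℝ) (hη : 0 < η) : ∃ N₀ : ℕ, ∀ N : ℕ, N₀ ≤ N → ∀ α : ℝ,
    ‖∑ n ∈ range N, (lm n : ℂ) * ec (α * n)‖ ≤ η * N := by
  obtain ⟨N₀, h0⟩ := Pool.Agent.H373R2.T7.sup_liou 1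
  have hlogT : Tendsto (fun X : ℕ => Real.log X) atTop atTop :=
    Real.tendsto_log_atTop.comp tendsto_natCast_atTop_atTop
  obtain ⟨N₁, h1⟩ := eventually_atTop.1 (hlogT.eventually_ge_atTop (2 / η))
  obtain ⟨N₂, h2⟩ := exists_nat_ge (2 * 2 / η)
  refine ⟨N₀ + N₁ + N₂ + 1, fun N hN α => ?_⟩
  have h3 := h0 N (by omega) α
  have h4 := h1 N (by omega)
  have h5 : 2 * 2 / η ≤ N := h2.trans (by exact_mod_cast (by omega : N₂ ≤ N))
  rw [div_le_iff₀ hη] at h5
  rw [pow_one] at h3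
  have hlog : 0 < Real.log N := lt_of_lt_of_le (by positivity) h4
  have h6 : (N : ℝ) / Real.log N ≤ η / 2 * N := by
    rw [div_le_iff₀ hlog]
    rw [div_le_iff₀ hη] at h4
    have : (0 : ℝ) ≤ N := Nat.cast_nonneg _
    nlinarith
  -- compare the two sums
  have h7 : ∑ n ∈ range (N + 1), (lm n : ℂ) * ec (α * n) =
      ∑ n ∈ Icc 1 N, Pool.Agent.H373R2.T7.liR n * Pool.Agent.H807R2.Dav.ee ((n : ℝ) * α) + 1 := by
    rw [sum_range_succ']
    have e : Icc 1 N = Ico 1 (N + 1) := by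
      ext n
      rw [mem_Icc, mem_Ico]
      omega
    rw [e, sum_Ico_eq_sum_range, Nat.add_sub_cancel]
    congr 1
    · refine sum_congr rfl fun n _ => ?_
      have e1 : Pool.Agent.H373R2.T7.liR (1 + n) = (lm (n + 1) : ℂ) := by
        unfold Pool.Agent.H373R2.T7.liR lm
        rw [add_comm]
        push_cast
        rfl
      have e2 : Pool.Agent.H807R2.Dav.ee (((1 + n : ℕ) : ℝ) * α) = ec (α * ((n + 1 : ℕ) : ℝ)) := by
        rw [Pool.Agent.H807R2.Dav.ee_eq]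
        unfold ec
        congr 2
        push_cast
        ring
      rw [e1, e2]
    · rw [Nat.cast_zero, mul_zero, ec_zero, mul_one]
      unfold lm
      simp
  have h8 : ∑ n ∈ range N, (lm n : ℂ) * ec (α * n) =
      ∑ n ∈ range (N + 1), (lm n : ℂ) * ec (α * n) - (lm N : ℂ) * ec (α * N) := by
    rw [sum_range_succ]
    ring
  rw [h8, h7]
  have h9 : ‖(lm N : ℂ) * ec (α * N)‖ = 1 := by
    rw [norm_mul, ec_norm, mul_one, Complex.norm_intCast]
    exact_mod_cast lm_abs N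
  have h10 := norm_sub_le (∑ n ∈ Icc 1 N, Pool.Agent.H373R2.T7.liR n * Pool.Agent.H807R2.Dav.ee ((n : ℝ) * α) + 1)
    ((lm N : ℂ) * ec (α * N))
  have h11 := norm_add_le (∑ n ∈ Icc 1 N, Pool.Agent.H373R2.T7.liR n * Pool.Agent.H807R2.Dav.ee ((n : ℝ) * α)) 1
  rw [norm_one] at h11
  linarith

lemma one2 (C : ℕ) (η : ℝ) (hη : 0 < η) : ∃ N₀ : ℕ, ∀ N : ℕ, N₀ ≤ N → ∀ M ≤ C * N, ∀ α : ℝ,
    ‖∑ n ∈ range M, (lm n : ℂ) * ec (α * n)‖ ≤ η * N := by
  obtain ⟨N₀, h0⟩ := one1 (η / (C + 1)) (by positivity)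
  obtain ⟨N₁, h1⟩ := exists_nat_ge ((N₀ : ℝ) / η)
  refine ⟨N₁, fun N hN M hM α => ?_⟩
  have hN0 : (0 : ℝ) ≤ N := Nat.cast_nonneg _
  have hC0 : (0 : ℝ) ≤ C := Nat.cast_nonneg _
  by_cases h : N₀ ≤ M
  · refine (h0 M h α).trans ?_
    have h2 : (M : ℝ) ≤ C * N := by exact_mod_cast hM
    rw [div_mul_eq_mul_div, div_le_iff₀ (by positivity)]
    nlinarith
  · have h2 : (N₀ : ℝ) ≤ η * N := by
      have h3 := h1.trans (by exact_mod_cast hN : (N₁ : ℝ) ≤ N)
      rw [div_le_iff₀ hη] at h3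
      linarith
    refine le_trans ?_ h2
    refine (norm_sum_le _ _).trans ?_
    have h3 : ∀ n ∈ range M, ‖(lm n : ℂ) * ec (α * n)‖ ≤ 1 := by
      intro n _
      rw [norm_mul, ec_norm, mul_one, Complex.norm_intCast]
      exact_mod_cast lm_le n
    refine (sum_le_sum h3).trans ?_
    rw [sum_const, card_range, nsmul_eq_mul, mul_one]
    exact_mod_cast (by omega : M ≤ N₀)

/-- along a progression -/
lemma one3 (a b : ℕ) (ha : 1 ≤ a) (C : ℕ) (η : ℝ) (hη : 0 < η) : ∃ N₀ : ℕ, ∀ N : ℕ, N₀ ≤ N → ∀ M ≤ C * N, ∀ α : ℝ,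
    ‖∑ n ∈ range M, (lm (a * n + b) : ℂ) * ec (α * n)‖ ≤ η * N := by
  obtain ⟨N₀, h0⟩ := one2 (a * C + b) (η / 2) (by positivity)
  refine ⟨N₀ + 1, fun N hN M hM α => ?_⟩
  have hN0 : (0 : ℝ) ≤ N := Nat.cast_nonneg _
  have ha0 : (0 : ℝ) < a := by exact_mod_cast ha
  rw [mult_sum (fun m => (lm (m + b) : ℂ)) a ha M α, norm_div, Complex.norm_natCast, div_le_iff₀ ha0]
  have h1 : ∀ t ∈ range a, ‖∑ m ∈ range (a * M), (lm (m + b) : ℂ) * ec ((α + t) / a * m)‖ ≤ η * N := by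
    intro t _
    set β : ℝ := (α + t) / a with hβ
    have h2 : ∑ n ∈ range (b + a * M), (lm n : ℂ) * ec (β * n) =
        ∑ n ∈ range b, (lm n : ℂ) * ec (β * n) +
        ec (β * b) * ∑ m ∈ range (a * M), (lm (m + b) : ℂ) * ec (β * m) := by
      rw [sum_range_add, mul_sum]
      congr 1
      refine sum_congr rfl fun n _ => ?_
      have e : ec (β * ((b + n : ℕ) : ℝ)) = ec (β * b) * ec (β * n) := by
        rw [← ec_add]
        congr 1
        push_cast
        ring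
      rw [e, add_comm b n]
      ring
    have h3 : ‖∑ m ∈ range (a * M), (lm (m + b) : ℂ) * ec (β * m)‖ =
        ‖ec (β * b) * ∑ m ∈ range (a * M), (lm (m + b) : ℂ) * ec (β * m)‖ := by
      rw [norm_mul, ec_norm, one_mul]
    have h4 : ec (β * b) * ∑ m ∈ range (a * M), (lm (m + b) : ℂ) * ec (β * m) =
        ∑ n ∈ range (b + a * M), (lm n : ℂ) * ec (β * n) - ∑ n ∈ range b, (lm n : ℂ) * ec (β * n) := by
      rw [h2]; ring
    rw [h3, h4]
    refine (norm_sub_le _ _).trans ?_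
    have h5 := h0 N (by omega) (b + a * M) (by
      have : a * M ≤ a * (C * N) := Nat.mul_le_mul_left _ hM
      have h6 : b ≤ b * N := Nat.le_mul_of_pos_right _ (by omega)
      calc b + a * M ≤ b * N + a * (C * N) := by omega
        _ = (a * C + b) * N := by ring) β
    have h6 := h0 N (by omega) b (by
      have h6 : b ≤ b * N := Nat.le_mul_of_pos_right _ (by omega)
      calc b ≤ b * N := h6
        _ ≤ (a * C + b) * N := Nat.mul_le_mul_right _ (by omega)) β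
    linarith
  refine (norm_sum_le _ _).trans ((sum_le_sum h1).trans (le_of_eq ?_))
  rw [sum_const, card_range, nsmul_eq_mul]
  ring

end Pool.Agent.Helper896.LL
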